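import Mathlib

namespace Pool.Agent.Results.MP_02ff8d_an.NonUnique

/-- The Legendre-Fenchel conjugate `f^*(y) = sup_x (⟪y, x⟫ - f x)`. -/
noncomputable def conj {X : Type} [NormedAddCommGroup X] [InnerProductSpace ℝ X]
    (f : X → EReal) (y : X) : EReal := ⨆ x : X, (((inner ℝ y x : ℝ) : EReal) - f x)

/-- `f` solves `f x = τ f^*(E x + c) + ⟪w, x⟫ + β` for all `x`. -/
def Solves {X : Type} [NormedAddCommGroup X] [InnerProductSpace ℝ X]
    (τ : ℝ) (c w : X) (β : ℝ) (E : X ≃L[ℝ] X) (f : X → EReal) : Prop :=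
  ∀ x : X, f x = (τ : EReal) * conj f (E x + c) + ((inner ℝ w x : ℝ) : EReal) + (β : EReal)

/-- `E` is positive definite: self-adjoint with `⟪E x, x⟫ > 0` for `x ≠ 0`. -/
def PosDef {X : Type} [NormedAddCommGroup X] [InnerProductSpace ℝ X] (E : X ≃L[ℝ] X) : Prop :=
  (∀ x y : X, inner ℝ (E x) y = inner ℝ x (E y)) ∧ ∀ x : X, x ≠ 0 → 0 < inner ℝ (E x) x

/-- The quadratic solution `f₀`. -/
noncomputable def f0 {X : Type} [NormedAddCommGroup X] [InnerProductSpace ℝ X]
    (τ : ℝ) (c w : X) (β : ℝ) (E : X ≃L[ℝ] X) (x : X) : ℝ :=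
  1 / 2 * inner ℝ (√τ • E x) x + inner ℝ ((1 / (1 + √τ)) • (w + √τ • c)) x +
    (β * (1 + √τ) ^ 2 + 1 / 2 * √τ * inner ℝ (c - w) (E.symm (c - w))) /
      ((1 + √τ) ^ 2 * (τ + 1))

/-- The assertion of Q1: for positive definite `E`, `f₀` is the only solution. -/
def Uniqueness : Prop :=
  ∀ (X : Type) [NormedAddCommGroup X] [InnerProductSpace ℝ X] [CompleteSpace X] [Nontrivial X]
    (τ : ℝ) (c w : X) (β : ℝ) (E : X ≃L[ℝ] X), 0 < τ → PosDef E →
    ∀ f : X → EReal, Solves τ c w β E f → f = fun x => ((f0 τ c w β E x : ℝ) : EReal)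

lemma conj_eq {F G : ℝ → ℝ} (h1 : ∀ x y, x * y ≤ F x + G y) (h2 : ∀ y, ∃ x, x * y = F x + G y)
    (y : ℝ) : conj (fun x : ℝ => (F x : EReal)) y = (G y : EReal) := by
  unfold conj
  apply le_antisymm
  · apply iSup_le
    intro x
    rw [← EReal.coe_sub, EReal.coe_le_coe_iff]
    have := h1 x y
    simp only [RCLike.inner_apply, conj_trivial]
    linarith
  · obtain ⟨x, hx⟩ := h2 y
    refine le_iSup_of_le x ?_
    rw [← EReal.coe_sub, EReal.coe_le_coe_iff]
    simp only [RCLike.inner_apply, conj_trivial]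
    linarith

/-- The staircase function for a ratio `s > 1`. -/
lemma exists_stair (s : ℝ) (hs : 1 < s) :
    ∃ F : ℝ → ℝ, (∀ x y, x * y ≤ F x + F y / s) ∧ (∀ y, ∃ x, x * y = F x + F y / s) ∧
      (∀ x, ∃ y, x * y = F x + F y / s) ∧ F 1 = s / (s + 1) := by
  have hs0 : 0 < s := by linarith
  have hex : ∀ x : ℝ, ∃ b : ℝ, (x = 0 → b = 0) ∧
      (x ≠ 0 → ∃ k : ℤ, b = s ^ k ∧ b ≤ |x| ∧ |x| < s * b) := by
    intro x
    rcases eq_or_ne x 0 with h | h
    · exact ⟨0, fun _ => rfl, fun h' => absurd h h'⟩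
    · obtain ⟨k, hk1, hk2⟩ := exists_mem_Ico_zpow (abs_pos.mpr h) hs
      refine ⟨s ^ k, fun h' => absurd h' h, fun _ => ⟨k, rfl, hk1, ?_⟩⟩
      rwa [zpow_add_one₀ hs0.ne', mul_comm] at hk2
  choose b hb0 hb using hex
  obtain ⟨F, hF⟩ : ∃ F : ℝ → ℝ, ∀ x, F x = s * b x * |x| - s ^ 2 / (s + 1) * (b x) ^ 2 :=
    ⟨_, fun _ => rfl⟩
  have hs1 : 0 < s + 1 := by linarith
  -- values at signed powers
  have hpow : ∀ x : ℝ, ∀ k : ℤ, |x| = s ^ k → F x = s / (s + 1) * (s ^ k) ^ 2 := by
    intro x k hx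
    have hx0 : x ≠ 0 := by
      rintro rfl
      rw [abs_zero] at hx
      exact (zpow_pos hs0 k).ne hx
    obtain ⟨j, hj, h1, h2⟩ := hb x hx0
    rw [hx, hj] at h1 h2
    rw [mul_comm, ← zpow_add_one₀ hs0.ne'] at h2
    have h3 : j ≤ k := (zpow_le_zpow_iff_right₀ hs).mp h1
    have h4 : k < j + 1 := (zpow_lt_zpow_iff_right₀ hs).mp h2
    have h5 : j = k := by omega
    rw [hF, hj, hx, h5]
    field_simp
    ring
  -- every line is below
  have hline : ∀ x : ℝ, ∀ j : ℤ, s * s ^ j * |x| - s ^ 2 / (s + 1) * (s ^ j) ^ 2 ≤ F x := by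
    intro x j
    have ha : 0 < s ^ j := zpow_pos hs0 j
    obtain ⟨a, haj⟩ : ∃ a, a = s ^ j := ⟨_, rfl⟩
    rcases eq_or_ne x 0 with h | h
    · rw [hF, hb0 x h, h, abs_zero]
      have : 0 ≤ s ^ 2 / (s + 1) * (s ^ j) ^ 2 := by positivity
      nlinarith
    · obtain ⟨k, hk, h1, h2⟩ := hb x h
      have hbpos : 0 < b x := by rw [hk]; exact zpow_pos hs0 k
      have key : 0 ≤ (b x - s ^ j) * ((s + 1) * |x| - s * (s ^ j + b x)) := by
        rcases lt_trichotomy j k with hjk | hjk | hjk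
        · have h3 : s * s ^ j ≤ b x := by
            rw [hk, mul_comm, ← zpow_add_one₀ hs0.ne']
            exact (zpow_le_zpow_iff_right₀ hs).mpr (by omega)
          apply mul_nonneg
          · nlinarith
          · nlinarith
        · rw [hk, hjk]; simp
        · have h3 : s * b x ≤ s ^ j := by
            rw [hk, mul_comm, ← zpow_add_one₀ hs0.ne']
            exact (zpow_le_zpow_iff_right₀ hs).mpr (by omega)
          apply mul_nonneg_of_nonpos_of_nonpos
          · nlinarith
          · nlinarith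
      rw [hF]
      have e : s * b x * |x| - s ^ 2 / (s + 1) * b x ^ 2 -
          (s * s ^ j * |x| - s ^ 2 / (s + 1) * (s ^ j) ^ 2) =
          s / (s + 1) * ((b x - s ^ j) * ((s + 1) * |x| - s * (s ^ j + b x))) := by
        field_simp
        ring
      have : 0 ≤ s / (s + 1) * ((b x - s ^ j) * ((s + 1) * |x| - s * (s ^ j + b x))) := by
        positivity
      linarith
  have hnn : ∀ x, 0 ≤ F x := by
    intro x
    rcases eq_or_ne x 0 with h | h
    · rw [hF, hb0 x h]; simp
    · obtain ⟨k, hk, h1, h2⟩ := hb x h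
      have hbpos : 0 < b x := by rw [hk]; exact zpow_pos hs0 k
      have e : F x = s * b x / (s + 1) * ((s + 1) * |x| - s * b x) := by
        rw [hF]; field_simp
      rw [e]
      apply mul_nonneg (by positivity)
      nlinarith
  have hF0 : F 0 = 0 := by rw [hF, hb0 0 rfl]; simp
  refine ⟨F, ?_, ?_, ?_, ?_⟩
  · intro x y
    rcases eq_or_ne x 0 with h | h
    · rw [h, zero_mul]
      exact add_nonneg (hnn 0) (div_nonneg (hnn y) hs0.le)
    · obtain ⟨k, hk, h1, h2⟩ := hb x h
      have hbpos : 0 < b x := by rw [hk]; exact zpow_pos hs0 k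
      have l1 := hline y (k - 1 + 1 - 1 + 1)
      have l2 := hline y (k + 1)
      have hk' : s ^ (k - 1 + 1 - 1 + 1) = b x := by rw [hk]; congr 1; ring
      rw [hk'] at l1
      rw [zpow_add_one₀ hs0.ne', ← hk] at l2
      have hxy : x * y ≤ |x| * |y| := by rw [← abs_mul]; exact le_abs_self _
      refine hxy.trans ?_
      have e : (s - 1) * b x * (F x + F y / s - |x| * |y|) =
          (s * b x - |x|) / s * (F y - (s * b x * |y| - s ^ 2 / (s + 1) * b x ^ 2)) +
          (|x| - b x) / s * (F y - (s * (b x * s) * |y| - s ^ 2 / (s + 1) * (b x * s) ^ 2)) := by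
        rw [hF x]
        field_simp
        ring
      have h3 : 0 ≤ (s - 1) * b x * (F x + F y / s - |x| * |y|) := by
        rw [e]
        apply add_nonneg
        · exact mul_nonneg (div_nonneg (by linarith) hs0.le) (by linarith)
        · exact mul_nonneg (div_nonneg (by linarith) hs0.le) (by linarith)
      have h4 : 0 < (s - 1) * b x := mul_pos (by linarith) hbpos
      have h5 := (mul_nonneg_iff_of_pos_left h4).mp h3
      linarith
  · intro y
    rcases eq_or_ne y 0 with h | h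
    · exact ⟨0, by rw [h, hF0]; simp⟩
    · obtain ⟨k, hk, h1, h2⟩ := hb y h
      refine ⟨SignType.sign y * b y, ?_⟩
      have hbpos : 0 < b y := by rw [hk]; exact zpow_pos hs0 k
      have habs : |(SignType.sign y : ℝ) * b y| = s ^ k := by
        rw [abs_mul, abs_of_pos hbpos, ← hk]
        rcases h.lt_or_gt with h' | h'
        · rw [sign_neg h']; simp
        · rw [sign_pos h']; simp
      rw [hpow _ k habs, hF y, ← hk]
      have : (SignType.sign y : ℝ) * b y * y = b y * |y| := by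
        rw [mul_right_comm, sign_mul_self]; ring
      rw [this]
      field_simp
      ring
  · intro x
    rcases eq_or_ne x 0 with h | h
    · exact ⟨0, by rw [h, hF0]; simp⟩
    · obtain ⟨k, hk, h1, h2⟩ := hb x h
      refine ⟨SignType.sign x * (s * b x), ?_⟩
      have hbpos : 0 < b x := by rw [hk]; exact zpow_pos hs0 k
      have habs : |(SignType.sign x : ℝ) * (s * b x)| = s ^ (k + 1) := by
        rw [abs_mul, abs_of_pos (mul_pos hs0 hbpos), zpow_add_one₀ hs0.ne', ← hk]
        rcases h.lt_or_gt with h' | h'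
        · rw [sign_neg h']; simp [mul_comm]
        · rw [sign_pos h']; simp [mul_comm]
      rw [hpow _ (k + 1) habs, hF x, zpow_add_one₀ hs0.ne', ← hk]
      have : x * ((SignType.sign x : ℝ) * (s * b x)) = s * b x * |x| := by
        rw [← mul_assoc, mul_comm x, sign_mul_self]; ring
      rw [this]
      field_simp
      ring
  · have := hpow 1 0 (by simp)
    rw [this]; simp

/-- The staircase function for a shift `c > 0`. -/
lemma exists_shift (c : ℝ) (hc : 0 < c) :
    ∃ F : ℝ → ℝ, (∀ x y, x * y ≤ F x + F (y - c)) ∧ (∀ y, ∃ x, x * y = F x + F (y - c)) ∧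
      F 0 = 0 := by
  obtain ⟨F, hF⟩ : ∃ F : ℝ → ℝ, ∀ x, F x =
      (⌊x / c⌋ + 1) * c * x - c ^ 2 * ⌊x / c⌋ * (⌊x / c⌋ + 1) / 2 := ⟨_, fun _ => rfl⟩
  have hfl : ∀ x : ℝ, (⌊x / c⌋ : ℝ) * c ≤ x ∧ x < (⌊x / c⌋ + 1) * c := by
    intro x
    constructor
    · have := Int.floor_le (x / c)
      rwa [le_div_iff₀ hc] at this
    · have := Int.lt_floor_add_one (x / c)
      rwa [div_lt_iff₀ hc] at this
  have hline : ∀ x : ℝ, ∀ j : ℤ, (j + 1) * c * x - c ^ 2 * j * (j + 1) / 2 ≤ F x := by
    intro x j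
    obtain ⟨h1, h2⟩ := hfl x
    rw [hF]
    obtain ⟨k, hk⟩ : ∃ k : ℤ, ⌊x / c⌋ = k := ⟨_, rfl⟩
    rw [hk] at h1 h2 ⊢
    have key : 0 ≤ ((k : ℝ) - j) * (2 * x - c * (k + j + 1)) := by
      rcases lt_trichotomy j k with h | h | h
      · have h3 : (j : ℝ) + 1 ≤ k := by exact_mod_cast h
        apply mul_nonneg <;> nlinarith
      · rw [h]; simp
      · have h3 : (k : ℝ) + 1 ≤ j := by exact_mod_cast h
        apply mul_nonneg_of_nonpos_of_nonpos <;> nlinarith
    nlinarith
  refine ⟨F, ?_, ?_, ?_⟩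
  · intro x y
    obtain ⟨h1, h2⟩ := hfl x
    obtain ⟨k, hk⟩ : ∃ k : ℤ, ⌊x / c⌋ = k := ⟨_, rfl⟩
    have l1 := hline (y - c) (k - 1)
    have l2 := hline (y - c) k
    have hFx := hF x
    rw [hk] at h1 h2 hFx
    push_cast at l1
    have h3 : 0 ≤ c * (F x + F (y - c) - x * y) := by
      have e : c * (F x + F (y - c) - x * y) =
          ((k + 1) * c - x) * (F (y - c) - ((k - 1 + 1) * c * (y - c) -
            c ^ 2 * (k - 1) * (k - 1 + 1) / 2)) +
          (x - k * c) * (F (y - c) - ((k + 1) * c * (y - c) - c ^ 2 * k * (k + 1) / 2)) := by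
        rw [hFx]; ring
      rw [e]
      apply add_nonneg
      · exact mul_nonneg (by linarith) (by linarith)
      · exact mul_nonneg (by linarith) (by linarith)
    have := (mul_nonneg_iff_of_pos_left hc).mp h3
    linarith
  · intro y
    refine ⟨(⌊(y - c) / c⌋ + 1) * c, ?_⟩
    have e : ⌊((⌊(y - c) / c⌋ + 1 : ℝ) * c) / c⌋ = ⌊(y - c) / c⌋ + 1 := by
      rw [mul_div_assoc, div_self hc.ne', mul_one]
      exact_mod_cast Int.floor_intCast (⌊(y - c) / c⌋ + 1)
    rw [hF, hF (y - c), e]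
    push_cast
    ring
  · rw [hF]; simp

/-- **Failure of uniqueness.**  On the real line with `E = id` both special cases mentioned in
Q1 have further solutions: for every `τ > 0` with `τ ≠ 1` the equation `f = τ f^*`, and for every
`c ≠ 0` the equation `f(x) = f^*(x + c)`.  In particular the assertion of Q1 is false. -/
theorem result :
    (∀ τ : ℝ, 0 < τ → τ ≠ 1 → ∃ f : ℝ → EReal,
      Solves τ 0 0 0 (ContinuousLinearEquiv.refl ℝ ℝ) f ∧
      f ≠ fun x => ((f0 τ 0 0 0 (ContinuousLinearEquiv.refl ℝ ℝ) x : ℝ) : EReal)) ∧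
    (∀ c : ℝ, c ≠ 0 → ∃ f : ℝ → EReal,
      Solves 1 c 0 0 (ContinuousLinearEquiv.refl ℝ ℝ) f ∧
      f ≠ fun x => ((f0 1 c 0 0 (ContinuousLinearEquiv.refl ℝ ℝ) x : ℝ) : EReal)) ∧
    ¬ Uniqueness := by
  have hf0 : ∀ τ : ℝ, 0 < τ → f0 τ 0 0 0 (ContinuousLinearEquiv.refl ℝ ℝ) (1 : ℝ) = √τ / 2 := by
    intro τ _
    simp [f0]
    ring
  have hne : ∀ τ : ℝ, 0 < τ → τ ≠ 1 → τ / (τ + 1) ≠ √τ / 2 := by
    intro τ hτ hτ1 h
    rw [div_eq_div_iff (by linarith) (by norm_num)] at h
    have h1 : √τ ^ 2 = τ := Real.sq_sqrt hτ.le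
    have h2 : 0 < √τ := Real.sqrt_pos.mpr hτ
    have h3 : √τ * (√τ - 1) ^ 2 = 0 := by
      have h4 : √τ * (√τ - 1) ^ 2 = √τ * (√τ ^ 2 + 1) - 2 * √τ ^ 2 := by ring
      rw [h4, h1]
      linarith
    have h4 : √τ - 1 = 0 := by
      rcases mul_eq_zero.mp h3 with h5 | h5
      · linarith
      · exact pow_eq_zero_iff (two_ne_zero) |>.mp h5
    apply hτ1
    rw [← h1, show √τ = 1 by linarith]; norm_num
  have part1 : ∀ τ : ℝ, 0 < τ → τ ≠ 1 → ∃ f : ℝ → EReal,
      Solves τ 0 0 0 (ContinuousLinearEquiv.refl ℝ ℝ) f ∧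
      f ≠ fun x => ((f0 τ 0 0 0 (ContinuousLinearEquiv.refl ℝ ℝ) x : ℝ) : EReal) := by
    intro τ hτ hτ1
    rcases lt_or_gt_of_ne hτ1 with h | h
    · -- `τ < 1`
      obtain ⟨F, h1, h2, h3, h4⟩ := exists_stair (1 / τ) (by rwa [lt_div_iff₀ hτ, one_mul])
      refine ⟨fun x => ((F x / (1 / τ) : ℝ) : EReal), ?_, ?_⟩
      · intro x
        have hc := conj_eq (F := fun x => F x / (1 / τ)) (G := F)
          (fun x y => by have := h1 y x; linarith [mul_comm x y])
          (fun y => by
            obtain ⟨z, hz⟩ := h3 y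
            exact ⟨z, by linarith [mul_comm y z]⟩) x
        simp only [ContinuousLinearEquiv.coe_refl', id, add_zero, inner_zero_left, EReal.coe_zero]
        rw [hc, ← EReal.coe_mul]
        congr 1
        field_simp
      · intro hcon
        have := congrFun hcon 1
        simp only [EReal.coe_eq_coe_iff] at this
        rw [hf0 τ hτ, h4] at this
        apply hne τ hτ hτ1
        rw [← this]
        field_simp
        ring
    · obtain ⟨F, h1, h2, h3, h4⟩ := exists_stair τ h
      refine ⟨fun x => ((F x : ℝ) : EReal), ?_, ?_⟩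
      · intro x
        have hc := conj_eq (F := F) (G := fun x => F x / τ) h1 h2 x
        simp only [ContinuousLinearEquiv.coe_refl', id, add_zero, inner_zero_left, EReal.coe_zero]
        rw [hc, ← EReal.coe_mul]
        congr 1
        field_simp
      · intro hcon
        have := congrFun hcon 1
        simp only [EReal.coe_eq_coe_iff] at this
        rw [hf0 τ hτ, h4] at this
        exact hne τ hτ hτ1 this
  refine ⟨part1, ?_, ?_⟩
  · intro c hc
    have hne0 : f0 1 c 0 0 (ContinuousLinearEquiv.refl ℝ ℝ) (0 : ℝ) ≠ 0 := by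
      have : f0 1 c 0 0 (ContinuousLinearEquiv.refl ℝ ℝ) (0 : ℝ) = c ^ 2 / 16 := by
        simp [f0]
        ring
      rw [this]
      positivity
    rcases lt_or_gt_of_ne hc with h | h
    · obtain ⟨F, h1, h2, h4⟩ := exists_shift (-c) (by linarith)
      refine ⟨fun x => ((F (-x) : ℝ) : EReal), ?_, ?_⟩
      · intro x
        have hcj := conj_eq (F := fun x => F (-x)) (G := fun y => F (-y - -c))
          (fun x y => by have := h1 (-x) (-y); linarith [neg_mul_neg x y])
          (fun y => by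
            obtain ⟨z, hz⟩ := h2 (-y)
            exact ⟨-z, by simp only [neg_neg]; linarith [mul_neg z y, neg_mul z y]⟩) (x + c)
        simp only [ContinuousLinearEquiv.coe_refl', id, add_zero, inner_zero_left, EReal.coe_zero,
          EReal.coe_one, one_mul]
        rw [hcj]
        congr 2
        ring
      · intro hcon
        have := congrFun hcon 0
        simp only [EReal.coe_eq_coe_iff, neg_zero] at this
        rw [h4] at this
        exact hne0 this.symm
    · obtain ⟨F, h1, h2, h4⟩ := exists_shift c h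
      refine ⟨fun x => ((F x : ℝ) : EReal), ?_, ?_⟩
      · intro x
        have hcj := conj_eq (F := F) (G := fun y => F (y - c)) h1 h2 (x + c)
        simp only [ContinuousLinearEquiv.coe_refl', id, add_zero, inner_zero_left, EReal.coe_zero,
          EReal.coe_one, one_mul]
        rw [hcj]
        congr 2
        ring
      · intro hcon
        have := congrFun hcon 0
        simp only [EReal.coe_eq_coe_iff] at this
        rw [h4] at this
        exact hne0 this.symm
  · intro hU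
    obtain ⟨f, hf, hf'⟩ := part1 4 (by norm_num) (by norm_num)
    refine hf' (hU ℝ 4 0 0 0 (ContinuousLinearEquiv.refl ℝ ℝ) (by norm_num) ⟨?_, ?_⟩ f hf)
    · intro x y; rfl
    · intro x hx
      exact real_inner_self_pos.mpr hx

end Pool.Agent.Results.MP_02ff8d_an.NonUnique
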